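import Mathlib
import Pool.Agent.Helper36.SB.Link2
import Pool.Agent.Helper16.TP.Bdd
import Pool.Agent.Helper61.SBTwo

/-!
The exact strength of Schmidt's subspace theorem for Vojta's inequality for points of degree `r` of the
projective line.

`k` is a number field, `S` a finite set of places containing the infinite ones, and `D = {g = 0}` a reduced
divisor of degree `q` of the projective line, defined over `k` (after a change of the coordinate every
reduced divisor over `k` is of this form). Points are given by their affine coordinate `x`, an element of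
the algebraic closure of `k`; a point of degree `r` is the same as a `k`-point of `Sym^r P^1 = P^r`, given by
the coefficients of its minimal polynomial.

The definitions of a profile (`IsProfile`), of the linear form `ev r a` (value at `a` of the polynomial with
given coefficients), of the discriminant `disc K r` and of `pts g K` (the points of `D` over `K`) are in
`Pool/Agent/Helper36/SB/Defs.lean`.
-/

set_option autoImplicit false

namespace Pool.Agent.Results.MP_71c16a_nt.SubspaceBarrier

open NumberField Polynomial IntermediateField Filter Pool.Agent.Helper64.Vojta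
open Pool.Agent.Helper36.SB (IsProfile ev disc pts)

universe u

section

variable (k : Type u) [Field k] [NumberField k] {L : Type u} [Field L] [NumberField L] [Algebra k L]

/-- Logarithmic height, relative to `k`, of the point of the projective line with affine
coordinate `y`; `Height.logHeight` is Mathlib's height relative to `L`. -/
noncomputable def hgt (y : L) : ℝ := Height.logHeight ![y, 1] / Module.finrank k L

variable {k}

/-- The Weil function, relative to `k`, at the place `ν` of `k` of the divisor `D = {g = 0}` of the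
projective line. -/
noncomputable def lamD (g : k[X]) (ν : Pl k) (y : L) : ℝ :=
  (∑ w ∈ above L ν, (g.natDegree * Real.log (sn w ![y, 1]) - Real.log (nv w (aeval y g)))) /
    Module.finrank k L

/-- Left side of Vojta's inequality: `h_K(y) + ∑_{ν ∈ S} λ_D(y,ν)`, with `K = - 2 · point`. -/
noncomputable def lhs (g : k[X]) (S : Finset (Pl k)) (y : L) : ℝ :=
  -(2 * hgt k y) + ∑ ν ∈ S, lamD g ν y

/-- The field generated by an algebraic number over a number field is a number field. -/
instance numberField_adjoin (x : AlgebraicClosure k) : NumberField k⟮x⟯ := by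
  have : FiniteDimensional k k⟮x⟯ := adjoin.finiteDimensional (Algebra.IsIntegral.isIntegral x)
  have h0 : CharZero k⟮x⟯ := charZero_of_injective_algebraMap (algebraMap k k⟮x⟯).injective
  have h1 : FiniteDimensional ℚ k⟮x⟯ := Module.Finite.trans k k⟮x⟯
  exact { to_charZero := h0, to_finiteDimensional := h1 }

/-- The point of `P^r(k)` which belongs to the point `x` of degree `r`: the coefficients of the minimal
polynomial of `x`. -/
noncomputable def coef (r : ℕ) (x : AlgebraicClosure k) : Fin (r + 1) → k := fun i => (minpoly k x).coeff i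

/-- For a finite place `v` and `x` of degree `r`: `ord_v(Δ) log N v`, where `Δ` is the discriminant (of degree
`2 r - 2` in the coefficients) of a multiple of the form of `x` with `v`-integral coefficients, one of
them a unit at `v` (`sn` is the maximum of the normalised absolute values of the coefficients). -/
noncomputable def ordDisc (r : ℕ) (v : FinitePlace k) (x : AlgebraicClosure k) : ℝ :=
  (2 * r - 2) * Real.log (sn (.inr v) (coef r x)) - Real.log (nv (.inr v) (minpoly k x).discr)

/-- `δ_S(x)` for `x` of degree `r`: the logarithm of the norm of the part outside `S` of the discriminant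
of the form of `x`, divided by `r`. It is at least `d_k(x) - O(1)`. -/
noncomputable def delta (r : ℕ) (S : Finset (Pl k)) (x : AlgebraicClosure k) : ℝ :=
  (∑ᶠ (v : FinitePlace k) (_ : Sum.inr v ∉ S), ordDisc r v x) / r

variable {K : Type u} [Field K] [NumberField K] [Algebra k K]

/-- For a form `f` of degree `m` over the Galois extension `K` of `k` and a point `P` of `P^r(k)`: the
Weil function `m log |P|_v - log |f(P)|_v` of the hypersurface `f = 0` at the place `v` of `k`, where the
absolute value is extended from `k` to `K` by means of the place `w₀` of `K` above `v`. (The extension of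
the normalised absolute value of `k` is the power with exponent `1/[K_{w₀}:k_v]` of the one of `K`, and
`[K:k]` is the number of places above `v` times `[K_{w₀}:k_v]`.) -/
noncomputable def weil {r : ℕ} (v : Pl k) (w₀ : Pl K) (m : ℕ) (f : MvPolynomial (Fin (r + 1)) K)
    (P : Fin (r + 1) → k) : ℝ :=
  ((above K v).card : ℝ) / Module.finrank k K * (m * Real.log (sn w₀ (fun i => algebraMap k K (P i))) -
    Real.log (nv w₀ (MvPolynomial.eval (fun i => algebraMap k K (P i)) f)))

/-- A sequence of points of degree `r` of the projective line is generic if every non-zero form over `k`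
in the coefficients of the minimal polynomial is different from zero from some member on. -/
def Generic (r : ℕ) (x : ℕ → AlgebraicClosure k) : Prop :=
  ∀ (m : ℕ) (F : MvPolynomial (Fin (r + 1)) k), F.IsHomogeneous m → F ≠ 0 →
    ∀ᶠ n in atTop, MvPolynomial.eval (coef r (x n)) F ≠ 0

end

/-- The value of the profile `w` at `D` plus the value at the discriminant. -/
noncomputable def total {k K : Type*} [Field k] [Field K] [Algebra k K] (g : k[X]) (r : ℕ) {ι : Type*} [Fintype ι]
    (w : ι → MvPolynomial (Fin (r + 1)) K → ℝ) : ℝ :=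
  ∑ v, (∑ a ∈ pts g K, w v (ev r a) + w v (disc K r))

section proofs

variable {k : Type u} [Field k] [NumberField k]

theorem countable_mv (r : ℕ) : Countable (MvPolynomial (Fin (r + 1)) k) := by
  have h1 : Countable k := (Module.finBasis ℚ k).equivFun.injective.countable
  rw [← Cardinal.mk_le_aleph0_iff]
  refine (MvPolynomial.cardinalMk_le_max_lift).trans ?_
  simp

theorem main1 (g : k[X]) (hg : Squarefree g) (S : Finset (Pl k))
    (hS : ∀ v : InfinitePlace k, Sum.inl v ∈ S) (r : ℕ) (hr : 2 ≤ r)
    (K : Type u) [Field K] [NumberField K] [Algebra k K] [IsGalois k K]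
    (hK : (g.map (algebraMap k K)).Splits) (w₀ : S → Pl K) (hw₀ : ∀ v : S, w₀ v ∈ above K v.1)
    (x : ℕ → AlgebraicClosure k) (hx : ∀ n, Module.finrank k k⟮x n⟯ = r) (hgen : Generic r x)
    (U : Ultrafilter ℕ) (hU : (U : Filter ℕ) ≤ atTop) :
    Tendsto (fun n => hgt k (AdjoinSimple.gen k (x n))) (U : Filter ℕ) atTop ∧
    ∃ w : S → MvPolynomial (Fin (r + 1)) K → ℝ, IsProfile k r w ∧
      (∀ (v : S) (m : ℕ) (f : MvPolynomial (Fin (r + 1)) K), f.IsHomogeneous m → f ≠ 0 →
        Tendsto (fun n => weil v.1 (w₀ v) m f (coef r (x n)) / Height.logHeight (coef r (x n)))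
          (U : Filter ℕ) (nhds (w v f))) ∧
      Tendsto (fun n => (lhs g S (AdjoinSimple.gen k (x n)) - delta r S (x n)) /
        hgt k (AdjoinSimple.gen k (x n))) (U : Filter ℕ) (nhds (total g r w - 2 * r)) := by
  classical
  have hr0 : 0 < r := by omega
  have hr' : (0 : ℝ) < r := by exact_mod_cast hr0
  have hint : ∀ n, IsIntegral k (x n) := fun n => Algebra.IsIntegral.isIntegral (x n)
  have hdeg : ∀ n, (minpoly k (x n)).natDegree = r := fun n => by rw [← hx n, adjoin.finrank (hint n)]
  have hmg : ∀ n, minpoly k (AdjoinSimple.gen k (x n)) = minpoly k (x n) := fun n => minpoly_gen k (x n)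
  have hmon : ∀ n, (minpoly k (x n)).Monic := fun n => minpoly.monic (hint n)
  set P : ℕ → Fin (r + 1) → k := fun n => coef r (x n) with hP
  have hG : Pool.Agent.Helper36.SB.Gen U P := fun N s hs hs0 => hU (hgen N s hs hs0)
  have hPlast : ∀ n, P n (Fin.last r) = 1 := by
    intro n
    show (minpoly k (x n)).coeff r = 1
    rw [← hdeg n]
    exact hmon n
  have hPne : ∀ n, P n ≠ 0 := by
    intro n h
    have := congrFun h (Fin.last r)
    rw [hPlast] at this
    exact one_ne_zero this
  have hvH : ∀ n, Height.logHeight (P n) = Pool.Agent.V2.vH (P n) := fun n =>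
    (Pool.Agent.V2.vH_eq (hPne n)).symm
  -- the heights tend to infinity
  have hV : Tendsto (fun n => Pool.Agent.V2.vH (P n)) (U : Filter ℕ) atTop := by
    rcases Pool.Agent.Helper16.TP.bdd_vec U P (Fin.last r) (Eventually.of_forall hPlast) with h | ⟨y, hy⟩
    · exact h
    · exfalso
      have hne : (0 : Fin (r + 1)) ≠ Fin.last r := by
        intro h
        have := congrArg Fin.val h
        rw [Fin.val_last] at this
        simp at this
        omega
      set s : MvPolynomial (Fin (r + 1)) k := MvPolynomial.X 0 - MvPolynomial.C (y 0) * MvPolynomial.X (Fin.last r)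
        with hs
      have hsh : s.IsHomogeneous 1 :=
        (MvPolynomial.isHomogeneous_X _ _).sub ((MvPolynomial.isHomogeneous_X _ _).C_mul _)
      have hs0 : s ≠ 0 := by
        intro h0
        have h1 := congrArg (MvPolynomial.eval (fun i => if i = 0 then (1 : k) else 0)) h0
        rw [hs] at h1
        simp [hne.symm] at h1
      obtain ⟨n, hn1, hn2⟩ := ((hG 1 s hsh hs0).and hy).exists
      apply hn1
      rw [hn2, hs, map_sub, MvPolynomial.eval_X, map_mul, MvPolynomial.eval_C, MvPolynomial.eval_X, ← hn2,
        hPlast, mul_one, hn2, sub_self]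
  have hh : Tendsto (fun n => Height.logHeight (P n)) (U : Filter ℕ) atTop := by
    simp_rw [hvH]
    exact hV
  obtain ⟨hprof, hlim⟩ := Pool.Agent.Helper36.SB.profile_of_sequence S w₀ hw₀ hG hh
  -- the points are outside D
  have hgx : ∀ᶠ n in (U : Filter ℕ), aeval (AdjoinSimple.gen k (x n)) g ≠ 0 := by
    have h1 : ∀ᶠ n in (U : Filter ℕ), ∀ a ∈ pts g K,
        MvPolynomial.eval (fun i => algebraMap k K (P n i)) (ev r a) ≠ 0 := by
      rw [Filter.eventually_all_finset]
      intro a _
      exact hG.extend 1 (ev r a) (Pool.Agent.Helper36.SB.ev_isHomogeneous K r a)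
        (Pool.Agent.Helper36.SB.ev_ne_zero K r a)
    filter_upwards [h1] with n hn h0
    have h2 : minpoly k (x n) ∣ g := by
      rw [← hmg n]
      exact minpoly.dvd k _ h0
    have hspl : ((minpoly k (x n)).map (algebraMap k K)).Splits :=
      hK.of_dvd (by rw [Ne, Polynomial.map_eq_zero]; exact hg.ne_zero) (Polynomial.map_dvd _ h2)
    obtain ⟨a, ha⟩ := hspl.exists_eval_eq_zero (by
      rw [Polynomial.degree_map, Polynomial.degree_eq_natDegree (hmon n).ne_zero, hdeg n]
      exact_mod_cast hr0.ne')
    have ha2 : aeval a g = 0 := by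
      obtain ⟨t, ht⟩ := h2
      rw [eval_map_algebraMap] at ha
      rw [ht, map_mul, ha, zero_mul]
    refine hn a ?_ ?_
    · unfold Pool.Agent.Helper36.SB.pts
      rw [Multiset.mem_toFinset, mem_aroots]
      exact ⟨hg.ne_zero, ha2⟩
    · have h3 := Pool.Agent.Helper36.SB.eval_ev (K := K) (minpoly k (x n)) (hdeg n).le a
      rw [ha] at h3
      exact h3
  obtain ⟨c1, h1⟩ := Pool.Agent.Helper36.SB.link g hg hK S hS w₀ hw₀ r hr0
  obtain ⟨c2, h2⟩ := Pool.Agent.Helper36.SB.ht_abs (k := k) r hr0
  set H : ℕ → ℝ := fun n => Height.logHeight ![AdjoinSimple.gen k (x n), 1] with hH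
  set V : ℕ → ℝ := fun n => Pool.Agent.V2.vH (P n) with hVdef
  have hHV : ∀ n, |H n - V n| ≤ c2 := by
    intro n
    have h3 := h2 k⟮x n⟯ (hx n) (AdjoinSimple.gen k (x n)) (by rw [hmg]; exact hdeg n)
    rw [hmg] at h3
    exact h3
  have hHt : Tendsto H (U : Filter ℕ) atTop := by
    have h3 : Tendsto (fun n => V n + (-c2)) (U : Filter ℕ) atTop := tendsto_atTop_add_const_right _ _ hV
    refine tendsto_atTop_mono (fun n => ?_) h3
    have := (abs_le.1 (hHV n)).1
    linarith
  have hhgt : ∀ n, hgt k (AdjoinSimple.gen k (x n)) = H n / r := by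
    intro n
    unfold hgt
    rw [hx n]
  refine ⟨?_, _, hprof, hlim, ?_⟩
  · simp_rw [hhgt]
    exact hHt.atTop_div_const hr'
  -- the limit
  set w : S → MvPolynomial (Fin (r + 1)) K → ℝ := fun (v : S) (f : MvPolynomial (Fin (r + 1)) K) =>
      ((above K v.1).card : ℝ) * Pool.Agent.Helper36.SB.lw U (fun n i => algebraMap k K (P n i)) (w₀ v) f
    with hw
  set F : ℕ → ℝ := fun n => ∑ v : S, (∑ a ∈ pts g K, Pool.Agent.Helper36.SB.lch (P n) v.1 (w₀ v) 1 (ev r a) +
      Pool.Agent.Helper36.SB.lch (P n) v.1 (w₀ v) (2 * r - 2) (disc K r)) with hF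
  have hFV : Tendsto (fun n => F n / V n) (U : Filter ℕ) (nhds (total g r w)) := by
    have h3 : ∀ n, F n / V n = ∑ v : S, (∑ a ∈ pts g K,
        Pool.Agent.Helper36.SB.lch (P n) v.1 (w₀ v) 1 (ev r a) / Height.logHeight (P n) +
        Pool.Agent.Helper36.SB.lch (P n) v.1 (w₀ v) (2 * r - 2) (disc K r) / Height.logHeight (P n)) := by
      intro n
      rw [hF, hvH, Finset.sum_div]
      refine Finset.sum_congr rfl fun v _ => ?_
      rw [add_div, Finset.sum_div]
    simp_rw [h3]
    unfold total
    refine tendsto_finsetSum _ fun v _ => ?_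
    refine Tendsto.add ?_ ?_
    · refine tendsto_finsetSum _ fun a _ => ?_
      exact hlim v 1 (ev r a) (Pool.Agent.Helper36.SB.ev_isHomogeneous K r a)
        (Pool.Agent.Helper36.SB.ev_ne_zero K r a)
    · exact hlim v (2 * r - 2) (disc K r) (Pool.Agent.Helper36.SB.disc_isHomogeneous K r hr0)
        (Pool.Agent.Helper36.SB.disc_ne_zero hr0)
  set A : ℕ → ℝ := fun n => (-(2 * H n) +
          ∑ ν ∈ S, ∑ w ∈ above k⟮x n⟯ ν, (g.natDegree * Real.log (sn w ![AdjoinSimple.gen k (x n), 1]) -
            Real.log (nv w (aeval (AdjoinSimple.gen k (x n)) g))) -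
          ∑ᶠ (v : FinitePlace k) (_ : Sum.inr v ∉ S), ordDisc r v (x n)) with hA
  have hAF : ∀ᶠ n in (U : Filter ℕ), |A n - (F n - 2 * r * V n)| ≤ c1 := by
    filter_upwards [hgx] with n hn
    have h3 := h1 k⟮x n⟯ (hx n) (AdjoinSimple.gen k (x n)) (by rw [hmg]; exact hdeg n) hn
    rw [hmg] at h3
    exact h3
  have hratio : ∀ n, (lhs g S (AdjoinSimple.gen k (x n)) - delta r S (x n)) /
        hgt k (AdjoinSimple.gen k (x n)) = A n / H n := by
    intro n
    have h3 : lhs g S (AdjoinSimple.gen k (x n)) - delta r S (x n) = A n / r := by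
      unfold lhs lamD delta
      rw [hhgt, hx n, ← Finset.sum_div, hA]
      field_simp
    rw [h3, hhgt, div_div_div_cancel_right₀ hr'.ne']
  simp_rw [hratio]
  have hHpos : ∀ᶠ n in (U : Filter ℕ), 0 < H n := hHt.eventually_gt_atTop 0
  have hVpos : ∀ᶠ n in (U : Filter ℕ), 0 < V n := hV.eventually_gt_atTop 0
  have hVH : Tendsto (fun n => V n / H n) (U : Filter ℕ) (nhds 1) := by
    have h3 : Tendsto (fun n => (V n - H n) / H n) (U : Filter ℕ) (nhds 0) := by
      refine squeeze_zero_norm' (a := fun n => c2 / H n) ?_ (tendsto_const_nhds.div_atTop hHt)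
      filter_upwards [hHpos] with n hn
      rw [Real.norm_eq_abs, abs_div, abs_of_pos hn]
      refine div_le_div_of_nonneg_right ?_ hn.le
      rw [abs_sub_comm]
      exact hHV n
    have h4 := h3.add_const 1
    rw [zero_add] at h4
    refine h4.congr' ?_
    filter_upwards [hHpos] with n hn
    field_simp
    ring
  have hdiff : Tendsto (fun n => (A n - (F n - 2 * r * V n)) / H n) (U : Filter ℕ) (nhds 0) := by
    refine squeeze_zero_norm' (a := fun n => c1 / H n) ?_ (tendsto_const_nhds.div_atTop hHt)
    filter_upwards [hHpos, hAF] with n hn h3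
    rw [Real.norm_eq_abs, abs_div, abs_of_pos hn]
    exact div_le_div_of_nonneg_right h3 hn.le
  have hfin := hdiff.add ((hFV.sub_const (2 * (r : ℝ))).mul hVH)
  rw [zero_add, mul_one] at hfin
  refine hfin.congr' ?_
  filter_upwards [hHpos, hVpos] with n hn hn'
  field_simp
  ring

end proofs

/-- The exact strength of the subspace theorem. With `q = deg g` the degree of `D`:
(1) Every generic sequence `x` of points of degree `r` has, along every ultrafilter `U`, a limit profile `w`:
the Weil function at `v ∈ S` of every hypersurface `f = 0` of `Sym^r P^1 = P^r` over `K`, divided by the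
height, tends to `w v f`; `w` satisfies `IsProfile`, i.e. the inequalities given by the subspace theorem
for all linear systems; and
`(h_K(x) + ∑_{ν ∈ S} λ_D(x,ν) - δ_S(x)) / h(x)` tends to `total g r w - 2 r`.
(2) `total g r w ≤ min q r + 2 r - 2` for all profiles.
(3) If `S` has at least two elements, there is a profile over the algebraic closure of `k` (so, by restriction,
over every `K`) with equality. If `q ≤ r` it is invariant under the Galois group of `k`.
For every `S` and every place `v₀` of `S` there is a profile over the algebraic closure of `k` which vanishes at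
all other places with `total g r w ≥ min q (r - 2) + 2 r - 2`. If `q ≤ r - 2` it has `total g r w = q + 2 r - 2`, so
there is equality in (2) also if `S` has only one element, and it is invariant under the Galois group of `k`.
(4) Hence `h_K(x) + ∑_{ν ∈ S} λ_D(x,ν) ≤ (min q r - 2 + ε) h(x) + δ_S(x) + C` for all `x` of degree `r` outside
`D` such that a certain non-zero polynomial in the coefficients of the minimal polynomial of `x` does not
vanish. -/
theorem result (k : Type u) [Field k] [NumberField k] (g : k[X]) (hg : Squarefree g) (S : Finset (Pl k))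
    (hS : ∀ v : InfinitePlace k, Sum.inl v ∈ S) (r : ℕ) (hr : 2 ≤ r) :
    (∀ (K : Type u) [Field K] [NumberField K] [Algebra k K] [IsGalois k K],
      (g.map (algebraMap k K)).Splits → ∀ w₀ : S → Pl K, (∀ v : S, w₀ v ∈ above K v.1) →
      ∀ x : ℕ → AlgebraicClosure k, (∀ n, Module.finrank k k⟮x n⟯ = r) → Generic r x →
      ∀ U : Ultrafilter ℕ, (U : Filter ℕ) ≤ atTop →
      ∃ w : S → MvPolynomial (Fin (r + 1)) K → ℝ, IsProfile k r w ∧
        (∀ (v : S) (m : ℕ) (f : MvPolynomial (Fin (r + 1)) K), f.IsHomogeneous m → f ≠ 0 →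
          Tendsto (fun n => weil v.1 (w₀ v) m f (coef r (x n)) / Height.logHeight (coef r (x n)))
            (U : Filter ℕ) (nhds (w v f))) ∧
        Tendsto (fun n => (lhs g S (AdjoinSimple.gen k (x n)) - delta r S (x n)) /
          hgt k (AdjoinSimple.gen k (x n))) (U : Filter ℕ) (nhds (total g r w - 2 * r))) ∧
    (∀ (K : Type u) [Field K] [Algebra k K], (g.map (algebraMap k K)).Splits →
      ∀ w : S → MvPolynomial (Fin (r + 1)) K → ℝ, IsProfile k r w →
      total g r w ≤ min (g.natDegree : ℝ) r + 2 * r - 2) ∧
    (2 ≤ S.card → ∃ w : S → MvPolynomial (Fin (r + 1)) (AlgebraicClosure k) → ℝ, IsProfile k r w ∧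
      total g r w = min (g.natDegree : ℝ) r + 2 * r - 2 ∧
      (g.natDegree ≤ r → ∀ (σ : AlgebraicClosure k ≃ₐ[k] AlgebraicClosure k) (v : S)
        (f : MvPolynomial (Fin (r + 1)) (AlgebraicClosure k)),
        w v (MvPolynomial.map (σ : AlgebraicClosure k →+* AlgebraicClosure k) f) = w v f)) ∧
    (∀ v₀ : S, ∃ w : S → MvPolynomial (Fin (r + 1)) (AlgebraicClosure k) → ℝ, IsProfile k r w ∧
      (∀ v : S, v ≠ v₀ → ∀ f, w v f = 0) ∧
      min (g.natDegree : ℝ) (r - 2) + 2 * r - 2 ≤ total g r w ∧
      (g.natDegree + 2 ≤ r → total g r w = g.natDegree + 2 * r - 2 ∧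
        ∀ (σ : AlgebraicClosure k ≃ₐ[k] AlgebraicClosure k) (v : S)
          (f : MvPolynomial (Fin (r + 1)) (AlgebraicClosure k)),
          w v (MvPolynomial.map (σ : AlgebraicClosure k →+* AlgebraicClosure k) f) = w v f)) ∧
    (∀ ε : ℝ, 0 < ε → ∃ (F : MvPolynomial (Fin (r + 1)) k) (C : ℝ), F ≠ 0 ∧
      ∀ x : AlgebraicClosure k, Module.finrank k k⟮x⟯ = r → aeval x g ≠ 0 →
        MvPolynomial.eval (coef r x) F ≠ 0 →
        lhs g S (AdjoinSimple.gen k x) ≤
          (min (g.natDegree : ℝ) r - 2 + ε) * hgt k (AdjoinSimple.gen k x) + delta r S x + C) := by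
  classical
  have hmin : ((min g.natDegree r : ℕ) : ℝ) = min (g.natDegree : ℝ) r := by
    rw [Nat.cast_min]
  have h2 : ∀ (K : Type u) [Field K] [Algebra k K], (g.map (algebraMap k K)).Splits →
      ∀ w : S → MvPolynomial (Fin (r + 1)) K → ℝ, IsProfile k r w →
      total g r w ≤ min (g.natDegree : ℝ) r + 2 * r - 2 := by
    intro K _ _ hK w hw
    have h0 : CharZero K := charZero_of_injective_algebraMap (algebraMap k K).injective
    have h1 := Pool.Agent.Helper36.SB.upper hr hw hg hK
    unfold total
    push_cast at h1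
    linarith
  refine ⟨?_, h2, ?_, ?_, ?_⟩
  · intro K _ _ _ _ hK w₀ hw₀ x hx hgen U hU
    exact (main1 g hg S hS r hr K hK w₀ hw₀ x hx hgen U hU).2
  · intro hcard
    obtain ⟨v₁, v₂, hv⟩ := Fintype.exists_pair_of_one_lt_card (α := S) (by rw [Fintype.card_coe]; omega)
    obtain ⟨w, hw, hgal, h1⟩ := Pool.Agent.Helper61.SBOne.two_places (k := k) (K := AlgebraicClosure k)
      (ι := S) hr hg hv
    refine ⟨w, hw, le_antisymm (h2 (AlgebraicClosure k) (IsAlgClosed.splits _) w hw) ?_, hgal⟩
    unfold total
    rw [Nat.cast_min] at h1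
    linarith
  · intro v₀
    obtain ⟨w, hw, hv, hgal, h1⟩ := Pool.Agent.Helper61.SBOne.one_place (k := k) (K := AlgebraicClosure k)
      (ι := S) hr hg v₀
    have hcast : ((r - 2 : ℕ) : ℝ) = (r : ℝ) - 2 := by
      rw [Nat.cast_sub hr]; norm_num
    have h3 : min (g.natDegree : ℝ) (r - 2) + 2 * r - 2 ≤ total g r w := by
      unfold total
      rw [Nat.cast_min, hcast] at h1
      linarith
    refine ⟨w, hw, hv, h3, fun hq => ⟨?_, hgal hq⟩⟩
    have h4 := h2 (AlgebraicClosure k) (IsAlgClosed.splits _) w hw
    have h5 : (g.natDegree : ℝ) + 2 ≤ r := by exact_mod_cast hq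
    rw [min_eq_left (by linarith)] at h3 h4
    linarith
  · intro ε hε
    by_contra hcon
    push Not at hcon
    have hcon' : ∀ (F : MvPolynomial (Fin (r + 1)) k) (C : ℝ), F ≠ 0 → ∃ x : AlgebraicClosure k,
        Module.finrank k k⟮x⟯ = r ∧ MvPolynomial.eval (coef r x) F ≠ 0 ∧
        (min (g.natDegree : ℝ) r - 2 + ε) * hgt k (AdjoinSimple.gen k x) + delta r S x + C <
          lhs g S (AdjoinSimple.gen k x) := by
      intro F C hF
      obtain ⟨x, h3, _, h5, h6⟩ := hcon F C hF
      exact ⟨x, h3, h5, h6⟩
    have hcount := countable_mv (k := k) r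
    have hne : Nonempty {F : MvPolynomial (Fin (r + 1)) k // F ≠ 0} := ⟨⟨1, one_ne_zero⟩⟩
    obtain ⟨e, he⟩ := exists_surjective_nat {F : MvPolynomial (Fin (r + 1)) k // F ≠ 0}
    choose x hx1 hx2 hx3 using fun n : ℕ => hcon' (∏ i ∈ Finset.range (n + 1), (e i).1) n
      (Finset.prod_ne_zero_iff.2 fun i _ => (e i).2)
    have hgen : Generic r x := by
      intro m F _ hF
      obtain ⟨i, hi⟩ := he ⟨F, hF⟩
      filter_upwards [eventually_ge_atTop i] with n hn h0
      apply hx2 n
      rw [map_prod]
      refine Finset.prod_eq_zero (Finset.mem_range.2 (Nat.lt_succ_of_le hn)) ?_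
      rw [hi]
      exact h0
    have hsep : g.Separable := PerfectField.separable_iff_squarefree.2 hg
    have h0 : CharZero g.SplittingField :=
      charZero_of_injective_algebraMap (algebraMap k g.SplittingField).injective
    have h1 : FiniteDimensional ℚ g.SplittingField := Module.Finite.trans k g.SplittingField
    have hNF : NumberField g.SplittingField := { to_charZero := h0, to_finiteDimensional := h1 }
    have hGal : IsGalois k g.SplittingField := IsGalois.of_separable_splitting_field hsep
    choose w₀ hw₀ using fun v : S => Pool.Agent.Helper61.AD.above_nonempty (L' := g.SplittingField) v.1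
    obtain ⟨hH, w, hw, -, hlim⟩ := main1 g hg S hS r hr g.SplittingField (SplittingField.splits g) w₀ hw₀
      x hx1 hgen (hyperfilter ℕ) Nat.hyperfilter_le_atTop
    have h3 := h2 g.SplittingField (SplittingField.splits g) w hw
    have h4 : ∀ᶠ n in ((hyperfilter ℕ : Ultrafilter ℕ) : Filter ℕ),
        min (g.natDegree : ℝ) r - 2 + ε ≤ (lhs g S (AdjoinSimple.gen k (x n)) - delta r S (x n)) /
          hgt k (AdjoinSimple.gen k (x n)) := by
      filter_upwards [hH.eventually_gt_atTop 0] with n hn
      rw [le_div_iff₀ hn]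
      have h5 := hx3 n
      have h6 : (0 : ℝ) ≤ n := Nat.cast_nonneg n
      linarith
    have h5 := ge_of_tendsto hlim h4
    linarith

end Pool.Agent.Results.MP_71c16a_nt.SubspaceBarrier
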